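import Pool.Agent.Helper632_KRF.FinE

/-!
# Bounded diameter for the Kähler-Ricci flow on conic bundles with smooth discriminant
-/

set_option autoImplicit false

open Set Filter Topology
open scoped Manifold ContDiff ComplexConjugate ComplexOrder ENNReal NNReal

namespace Pool.Agent.Results.MP_a2bf38_gt.ConicFibrations

open Pool.Agent.Helper632_KRF

/-- Let `X` be a compact connected complex manifold of dimension `2 + k` and `p : X → Y` a holomorphic
map to a complex manifold of dimension `1 + k` which is a conic bundle with reduced fibres and smooth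
discriminant: near every point of `Y` it is isomorphic to the projection of `polydisc × ℙ¹` or to the
projection of `{([X : Y : Z], w, v) : X Y = w Z²} ⊆ ℙ² × polydisc` to the polydisc with coordinates
`(w, v)`, `w ∈ ℂ`, `v ∈ ℂ^k`. Let `ω(t)`, `t ∈ [0, T)`, `T < ∞`, be a solution of the Kähler-Ricci flow
on `X`, and suppose that

* `η ≥ c |dp|²` with `c > 0` locally on `Y` for a smooth representative `η` of the limit class
  `[ω(0)] - 2 π T c_1(X)` (for example `η = p^* ω_Y` for a Kähler metric `ω_Y` of `Y`), or
* there is a complex Finsler metric `N` on `Y` (`N` is the square of the length) whose curvature is bounded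
  above by a multiple of a smooth representative `η` of the limit class: `i∂∂̄ log N ≥ - A η` on `p^* TY`
  minus the zero section, `A ≥ 0`. This holds with `A = 0` if `Y` has a Kähler metric of nonpositive
  holomorphic bisectional curvature, and if a symmetric power of the cotangent bundle of `Y` is
  generated by global sections.

Then the diameter of `(X, ω(t))` is bounded uniformly in `t ∈ [0, T)`. -/
theorem result {k : ℕ} {X Y : Type} [TopologicalSpace X] [T2Space X] [CompactSpace X]
    [ConnectedSpace X] [ChartedSpace (Cn (2 + k)) X] [IsManifold 𝓘(ℂ, Cn (2 + k)) ω X]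
    [TopologicalSpace Y] [T2Space Y] [ChartedSpace (Cn (1 + k)) Y]
    [IsManifold 𝓘(ℂ, Cn (1 + k)) ω Y] {T : ℝ} (hT : 0 < T) (G : KRF (2 + k) X T)
    (p : X → Y) (hp : ContMDiff 𝓘(ℂ, Cn (2 + k)) 𝓘(ℂ, Cn (1 + k)) ω p)
    (conic : ∀ y : Y, LineModel k p y ∨ ConicModel k p y)
    (base : (∃ F, SmoothFun (2 + k) X F ∧ ∀ y : Y, G.EtaPos F (1 + k) p y) ∨
      G.FinCond (1 + k) p) :
    ∃ C : ℝ≥0, ∀ t ∈ Ico 0 T, ∀ x y : X, G.dist t x y ≤ C :=
  diam_bound_conicF hT hp base conic

end Pool.Agent.Results.MP_a2bf38_gt.ConicFibrations
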