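import Pool.Agent.Helper632_KRF.FinE

/-!
# Bounded diameter for the Kähler-Ricci flow on fibrations with tensors near the fibres
-/

set_option autoImplicit false

open Set Filter Topology
open scoped Manifold ContDiff ComplexConjugate ComplexOrder ENNReal NNReal

namespace Pool.Agent.Results.MP_a2bf38_gt.LocalFibrations

open Pool.Agent.Helper632_KRF

/-- Let `ω(t)`, `t ∈ [0, T)`, `T < ∞`, be a solution of the Kähler-Ricci flow on the compact connected
complex manifold `X`, let `p : X → Y` be a surjective holomorphic map to a complex manifold of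
dimension `d`, and suppose that

* `η ≥ c |dp|²` with `c > 0` locally on `Y` for a smooth representative `η` of the limit class
  `[ω(0)] - 2 π T c_1(X)`, or
* there is a complex Finsler metric `N` on `Y` (`N` is the square of the length) whose curvature is bounded
  above by a multiple of a smooth representative `η` of the limit class: `i∂∂̄ log N ≥ - A η` on `p^* TY`
  minus the zero section, `A ≥ 0`. This holds with `A = 0` if `Y` has a Kähler metric of nonpositive
  holomorphic bisectional curvature, and if a symmetric power of the cotangent bundle of `Y` is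
  generated by global sections; here the weights
  of the norms are plurisubharmonic (`A y = 0`).

For every `y ∈ Y` let finitely many holomorphic tensors of degree `m ≥ 1` be given over `p ⁻¹ (D y)`,
where `D y` is an open neighbourhood of `y`, with norms `Φ y j`, such that for all `a`, `b` the sums of
the norms for `a` and `b` are locally comparable over `D a ∩ D b` (this holds for instance if both
families generate the direct image of `S^m TX`), the horizontal condition holds for `Φ y` at `y`, and
over some point with connected fibre the tensors of one of the families detect all nonzero covectors.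
Then the diameter of `(X, ω(t))` is bounded uniformly in `t ∈ [0, T)`. -/
theorem result {n d : ℕ} {X Y : Type} [TopologicalSpace X] [T2Space X] [CompactSpace X]
    [ConnectedSpace X] [ChartedSpace (Cn n) X] [IsManifold 𝓘(ℂ, Cn n) ω X]
    [TopologicalSpace Y] [T2Space Y] [ChartedSpace (Cn d) Y] [IsManifold 𝓘(ℂ, Cn d) ω Y]
    {T : ℝ} (hT : 0 < T) (G : KRF n X T) (F : X → ℝ)
    (p : X → Y) (hp : ContMDiff 𝓘(ℂ, Cn n) 𝓘(ℂ, Cn d) ω p) (hsurj : Function.Surjective p)
    {m : ℕ} (hm : 0 < m) (A : Y → ℝ)
    (base : (SmoothFun n X F ∧ ∀ y, G.EtaPos F d p y) ∨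
      ((∀ y, A y = 0) ∧ G.FinCond d p))
    {ι : Y → Type} [∀ y, Fintype (ι y)] (D : Y → Set Y) (hD : ∀ y, IsOpen (D y))
    (hyD : ∀ y, y ∈ D y) (Φ : ∀ y, ι y → CotFun n X)
    (hΦ : ∀ y j, G.IsTensorNormOn F (A y) m (p ⁻¹' D y) (Φ y j))
    (comparable : ∀ a b : Y, ∀ y ∈ D a ∩ D b, Dominates (Φ a) (Φ b) p y)
    (horizontal : ∀ y : Y, HorCond (Φ y) m d p y)
    (vertical : ∃ a : Y, ∃ y₁ ∈ D a, IsConnected (p ⁻¹' {y₁}) ∧
      ∀ x ∈ p ⁻¹' {y₁}, ∀ ξ : Cn n →L[ℂ] ℂ, ξ ≠ 0 → 0 < ∑ j, (Φ a j).eval x ξ) :
    ∃ C : ℝ≥0, ∀ t ∈ Ico 0 T, ∀ x y : X, G.dist t x y ≤ C :=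
  diam_bound_localF hT hm hD hyD hp hsurj base hΦ comparable horizontal vertical

end Pool.Agent.Results.MP_a2bf38_gt.LocalFibrations
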