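import Pool.Agent.Helper632_KRF.QdMain

/-!
# Bounded diameter for the Kähler-Ricci flow on quadric fibrations over curves
-/

set_option autoImplicit false

open Set Filter Topology
open scoped Manifold ContDiff ComplexConjugate ComplexOrder ENNReal NNReal

namespace Pool.Agent.Results.MP_a2bf38_gt.QuadricFibrations

open Pool.Agent.Helper632_KRF

/-- Let `X` be a compact connected complex manifold of dimension `n` and `p : X → Y` a holomorphic map
to a curve all of whose fibres are smooth quadrics or quadric cones with one node, of any dimension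
`n - 1`: near every point of `Y` it is isomorphic to the projection of `{([x : u], w) : q(x) = w u²}`
over a disc in the `w`-plane, where `q` is a nondegenerate quadratic form in `n` variables. For `n = 3`
these are the extremal contractions of threefolds to curves with general fibre `ℙ¹ × ℙ¹`. Let `ω(t)`,
`t ∈ [0, T)`, `T < ∞`, be a solution of the Kähler-Ricci flow on `X`, and suppose that

* `η ≥ c |dp|²` with `c > 0` locally on `Y` for a smooth representative `η` of the limit class
  `[ω(0)] - 2 π T c_1(X)` (for example `η = p^* ω_Y` for a Kähler metric `ω_Y` of `Y`), or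
* `Y` has a smooth Hermitian metric of nonpositive curvature (positive genus).

Then the diameter of `(X, ω(t))` is bounded uniformly in `t ∈ [0, T)`. -/
theorem result {n : ℕ} {X Y : Type} [TopologicalSpace X] [T2Space X] [CompactSpace X]
    [ConnectedSpace X] [ChartedSpace (Cn n) X] [IsManifold 𝓘(ℂ, Cn n) ω X]
    [TopologicalSpace Y] [T2Space Y] [ChartedSpace (Cn 1) Y] [IsManifold 𝓘(ℂ, Cn 1) ω Y]
    {T : ℝ} (hT : 0 < T) (G : KRF n X T)
    (p : X → Y) (hp : ContMDiff 𝓘(ℂ, Cn n) 𝓘(ℂ, Cn 1) ω p)
    (quadric : ∀ y : Y, Nonempty (QuadricModel n p y))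
    (base : (∃ F, SmoothFun n X F ∧ ∀ y : Y, G.EtaPos F 1 p y) ∨ Nonempty (NonposMetric 1 Y)) :
    ∃ C : ℝ≥0, ∀ t ∈ Ico 0 T, ∀ x y : X, G.dist t x y ≤ C :=
  diam_bound_quadric hT hp base quadric

end Pool.Agent.Results.MP_a2bf38_gt.QuadricFibrations
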