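import Pool.Agent.Helper632_KRF.FinE

/-!
# Bounded diameter for the Kähler-Ricci flow on toric fibre bundles
-/

set_option autoImplicit false

open Set Filter Topology
open scoped Manifold ContDiff ComplexConjugate ComplexOrder ENNReal NNReal

namespace Pool.Agent.Results.MP_a2bf38_gt.ToricFibreBundles

open Pool.Agent.Helper632_KRF

/-- Let `p : X → Y` be a holomorphic fibre bundle whose fibre is a toric manifold, with arbitrary
transition functions, `X` compact and connected, and let `ω(t)`, `t ∈ [0, T)`, `T < ∞`, be a solution of
the Kähler-Ricci flow on `X`. Suppose that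

* `η ≥ c |dp|²` with `c > 0` locally on `Y` for a smooth representative `η` of the limit class
  `[ω(0)] - 2 π T c_1(X)` (for example `η = p^* ω_Y` for a Kähler metric `ω_Y` of `Y`), or
* there is a complex Finsler metric `N` on `Y` (`N` is the square of the length) whose curvature is bounded
  above by a multiple of a smooth representative `η` of the limit class: `i∂∂̄ log N ≥ - A η` on `p^* TY`
  minus the zero section, `A ≥ 0`. This holds with `A = 0` if `Y` has a Kähler metric of nonpositive
  holomorphic bisectional curvature, and if a symmetric power of the cotangent bundle of `Y` is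
  generated by global sections (curves of positive genus, complex tori
  and their submanifolds, quotients of bounded symmetric domains, products of these, a point).

Then the diameter of `(X, ω(t))` is bounded uniformly in `t ∈ [0, T)`. -/
theorem result {d r : ℕ} {X Y : Type} [TopologicalSpace X] [T2Space X] [CompactSpace X]
    [ConnectedSpace X] [ChartedSpace (Cn (d + r)) X] [IsManifold 𝓘(ℂ, Cn (d + r)) ω X]
    [TopologicalSpace Y] [T2Space Y] [ChartedSpace (Cn d) Y] [IsManifold 𝓘(ℂ, Cn d) ω Y]
    {T : ℝ} (hT : 0 < T) (G : KRF (d + r) X T)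
    (p : X → Y) (hp : ContMDiff 𝓘(ℂ, Cn (d + r)) 𝓘(ℂ, Cn d) ω p) (surj : Function.Surjective p)
    (toric : ∀ y : Y, Nonempty (ToricProduct d r p y))
    (base : (∃ F, SmoothFun (d + r) X F ∧ ∀ y : Y, G.EtaPos F d p y) ∨ G.FinCond d p) :
    ∃ C : ℝ≥0, ∀ t ∈ Ico 0 T, ∀ x y : X, G.dist t x y ≤ C := by
  rcases base with ⟨F, hF, hη⟩ | hP
  · exact diam_bound_toric_bundle hT hF hp surj hη toric
  · exact diam_bound_toric_bundleF hT hp surj hP toric

end Pool.Agent.Results.MP_a2bf38_gt.ToricFibreBundles
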